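import Mathlib
import Pool.Agent.Helper7.JQ.Main

/-!
# Degree one elements of section rings of joint quotients of products

Let `Y i`, `i` in a finite set, be weighted complete intersections over the complex numbers with
sum of weights `W i` and sum of degrees `E i ≤ W i` (Fano, or Calabi-Yau), with arbitrary
singularities, and let a finite group `G` act on all the `Y i` (linearly on the variables). `G` may
act jointly: it need not be a product of groups acting on the factors. Let `X` be the quotient of
the product of the `Y i` by `G`. If the sheaf `O(1, …, 1)` is invertible on `X` and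

`∑ arcsin (E i / (2 W i - E i)) ≤ π / 2`,

then it has a nonzero section, that is, the section ring `S` of `X` has a nonzero element of degree
one. By Hyry and Smith this is the equality of the core and of the graded core of `I_N` for large `N`.

The condition holds for one factor; for two factors with `E i ≤ 2 (√2 - 1) W i`, for three factors
with `E i ≤ (2/3) W i`; for one Calabi-Yau factor and any number of weighted projective spaces.
Without a condition the statement is false: there is a quotient of the product of four plane cubics
(`E i = W i = 3`) for which `S_1 = 0`.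

Idea of the proof. For `g` in `G` let `α i r` be the number of the eigenvectors `x` of `g` in the
span of the variables of `Y i`, of weight `m` and eigenvalue `λ`, with `λ r ^ m = 1`, and `β i r` the
similar number for the equations. If `α i r > β i r` then `g` has a fixed point on `Y i` with this
`r`. As `O(1, …, 1)` is invertible on `X`, the product of these `r` over `i` is always `1`, so there is
exactly one such `r = t i` for every `i`. It follows that `t i` times the trace `z` of `g` on the
degree one part of the ring of `Y i` has
`‖z - A‖ ≤ min (W i - A) (A - W i + E i)`, where `A = α i (t i) - β i (t i) > 0`. So the argument of `z` is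
at most `arcsin (E i / (2 W i - E i))`, and the trace of `g` on the multidegree `(1, …, 1)`, which is
the product of the numbers `z`, has a nonnegative real part. It is positive for `g = 1`.
-/

namespace Pool.Agent.Results.MP_954e53_ag.JointQuotients

open Pool.Agent.Helper7.JQ

theorem result {ι G : Type} [Fintype ι] [DecidableEq ι] [Group G] [Finite G] (D : Datum ι G)
    -- `O(1, …, 1)` is invertible on the quotient
    (hS : D.SectionRing)
    -- the factors are Fano or Calabi-Yau
    (hF : ∀ i, D.E i < D.W i ∨ (D.E i = D.W i ∧ D.c i < D.n i))
    (harc : ∑ i, Real.arcsin (D.E i / (2 * D.W i - D.E i)) ≤ Real.pi / 2) :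
    ∃ P : D.Poly, D.Inv 1 P ∧ P ∉ D.I := by
  classical
  have _ := Fintype.ofFinite G
  have hE : ∀ i, D.E i ≤ D.W i := fun i => by rcases hF i with h1 | h1 <;> omega
  apply D.exists_inv
  rw [Complex.re_sum]
  refine Finset.sum_pos' (fun g _ => ?_) ⟨1, Finset.mem_univ _, ?_⟩
  · rcases D.dichotomy hS hE g with ⟨j, _, _, h1⟩ | ⟨t, R, F, u, ht, h1⟩
    · have h2 := h1 1 (Nat.coprime_one_left _)
      rw [pow_one] at h2
      rw [Finset.prod_eq_zero (Finset.mem_univ j) h2, Complex.zero_re]
    · have h2 : ∏ i, (D.A i g).trace = ∏ i, (t i * (D.A i g).trace) := by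
        rw [Finset.prod_mul_distrib, ht, one_mul]
      rw [h2]
      refine re_prod_nonneg Finset.univ _ (fun i => Real.arcsin (D.E i / (2 * D.W i - D.E i)))
        (fun i _ => ?_) harc
      obtain ⟨h3, h4, h5, h6, h7, h8⟩ := h1 i
      set U : ℕ := ∑ r ∈ F i, u i r with hU
      have hUC : (∑ r ∈ F i, (u i r : ℂ)) = (U : ℂ) := by rw [hU]; push_cast; rfl
      have hUR : (∑ r ∈ F i, (u i r : ℝ)) = (U : ℝ) := by rw [hU]; push_cast; rfl
      rw [hUC, hUR] at h8
      -- the second disc
      have h9 : ‖t i * (D.A i g).trace - (R i + U)‖ ≤ (U : ℝ) := by
        have h10 := h7 1 (Nat.coprime_one_left _)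
        simp only [pow_one] at h10
        have h11 : t i * (D.A i g).trace - (R i + U) = - ∑ r ∈ F i, (u i r : ℂ) * (t i / r) := by
          rw [h10, ← hUC]
          simp only [mul_sub, mul_one, Finset.sum_sub_distrib]
          ring
        rw [h11, norm_neg, ← hUR]
        refine (norm_sum_le _ _).trans (Finset.sum_le_sum (fun r hr => ?_))
        have h12 : ‖t i / r‖ = 1 := by
          have h14 := congrArg norm (h6 r hr).1
          rw [norm_pow, norm_one] at h14
          exact (pow_eq_one_iff_of_nonneg (norm_nonneg _) D.M_pos.ne').mp h14
        rw [norm_mul, h12, mul_one, Complex.norm_natCast]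
      have hA : (0 : ℝ) < R i + U := by exact_mod_cast h5
      have hW : (R i : ℝ) + U ≤ D.W i := by
        have := (norm_nonneg _).trans h8
        linarith
      have h3' : (D.W i : ℝ) ≤ D.E i + R i := by exact_mod_cast h3
      have hE' : (D.E i : ℝ) ≤ D.W i := by exact_mod_cast hE i
      have hE0 : (0 : ℝ) ≤ D.E i := Nat.cast_nonneg _
      have hW0 : (0 : ℝ) < D.W i := by linarith
      have hden : (0 : ℝ) < 2 * D.W i - D.E i := by linarith
      refine arg_le (A := R i + U) hA (div_nonneg hE0 hden.le)
        ((div_le_one hden).mpr (by linarith)) ?_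
      rw [div_mul_eq_mul_div, le_div_iff₀ hden]
      push_cast
      set x : ℝ := ‖t i * (D.A i g).trace - (R i + U)‖ with hx
      have hx0 : 0 ≤ x := norm_nonneg _
      have h13 : (0 : ℝ) ≤ D.W i - D.E i := by linarith
      nlinarith [mul_nonneg h13 (show (0 : ℝ) ≤ D.E i - 2 * x by linarith),
        mul_nonneg hE0 (show (0 : ℝ) ≤ R i + U - (x + (D.W i - D.E i)) by linarith)]
  · have h1 : ∏ i, (D.A i 1).trace =
        ((∏ i, Fintype.card {l : Fin (D.n i) // D.w i l = 1} : ℕ) : ℂ) := by
      push_cast
      exact Finset.prod_congr rfl (fun i _ => D.trace_one i)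
    rw [h1, Complex.natCast_re]
    exact_mod_cast Finset.prod_pos (fun i _ => D.one_pos hS hF i)

end Pool.Agent.Results.MP_954e53_ag.JointQuotients
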