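import Pool.Agent.Helper9.SC14

/-!
# Gorenstein section rings with few generators: a linear lower bound for the number of sections

For a Gorenstein section ring `S` of dimension `d` with negative `a`-invariant which is generated by
`N` homogeneous elements, in every characteristic and without any condition on the singularities,
`dim S_1 > (3 / 2) d - (9 / 10) N`. In particular `S_1 ≠ 0` if `3 N ≤ 5 d`, that is, if the
embedding codimension `N - d` is at most two thirds of the dimension.

Proof: let `R(t) = H(t) (1 - t) ^ d` be the numerator of the Hilbert series; it is a palindromic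
polynomial of degree `a + d < d` with `R(1) ≥ 1`. On the circle `|t| = r` one has
`|R(t)| ≤ H(r) |1 - t| ^ d`. With `M(t) = ∏ (1 - r^(4k) t) (1 - r^(4k) / t) /
((1 - r^(4k-2) t) (1 - r^(4k-2) / t))` one has `|1 - t| |M(t)| = 1` on this circle, so the maximum
principle for `R(t) ^ 2 M(t) ^ (2 d) / t ^ (a + d)` on the annulus `r < |t| < 1 / r` gives
`H(r) ≥ (r ^ (1 / 2) (1 + r ^ 2 + r ^ 6 + r ^ 12 + ...) ^ 2) ^ d`. On the other hand, since `O(1)` is
invertible, the generators of degree prime to `p` have no common zero for every prime `p`, so at most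
`N - d` of the generators have a degree divisible by `p`, and this bounds `H(r)` from above. The
bounds are compared at `r = (17 / 20) ^ 2`.
-/

set_option autoImplicit false

universe u

namespace Pool.Agent.Results.MP_954e53_ag.LinearBound

variable {k S : Type u} [Field k] [CommRing S] [Algebra k S] (𝒜 : ℕ → Submodule k S)

/-- The sheaf `O(1)` is invertible on `Proj S`: for every homogeneous prime ideal which does not
contain all elements of positive degree there are elements of two consecutive degrees outside of it.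
(This holds if `S` is the section ring of an ample invertible sheaf `L`, since `L ^ n` is generated
by its sections for large `n`.) -/
def IsInvertible [GradedAlgebra 𝒜] : Prop :=
  ∀ 𝔭 : Ideal S, 𝔭.IsPrime → 𝔭.IsHomogeneous 𝒜 → (∃ n, 0 < n ∧ ∃ x ∈ 𝒜 n, x ∉ 𝔭) →
    ∃ n, (∃ x ∈ 𝒜 n, x ∉ 𝔭) ∧ ∃ y ∈ 𝒜 (n + 1), y ∉ 𝔭

/-- The graded ring `S` is Gorenstein: the elements `θ 1, ..., θ d`, homogeneous of positive degrees
`e 1, ..., e d`, form a homogeneous system of parameters (the ideal `(θ)` contains all elements of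
large degree) and a regular sequence, and the socle of `S / (θ)` is a line, generated by the class of
an element of degree `σ`. So `d` is the dimension of `S` and `σ - ∑ e j` is the `a`-invariant. -/
structure IsGorenstein {d : ℕ} (e : Fin d → ℕ) (θ : Fin d → S) (σ : ℕ) : Prop where
  pos : ∀ j, 0 < e j
  mem : ∀ j, θ j ∈ 𝒜 (e j)
  regular : ∀ (j : Fin d) (x : S), θ j * x ∈ Ideal.span (θ '' {i | i < j}) →
    x ∈ Ideal.span (θ '' {i | i < j})
  parameters : ∃ N, ∀ n, N ≤ n → ∀ x ∈ 𝒜 n, x ∈ Ideal.span (Set.range θ)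
  socle : ∃ s ∈ 𝒜 σ, s ∉ Ideal.span (Set.range θ) ∧
    ∀ x, (∀ n, 0 < n → ∀ y ∈ 𝒜 n, x * y ∈ Ideal.span (Set.range θ)) ↔
      ∃ c : k, x - c • s ∈ Ideal.span (Set.range θ)

/-- Let `S = ⨁ S_n` be a graded domain over an arbitrary field `k = S_0`, generated by `N`
homogeneous elements `x 1, ..., x N` of positive degrees, such that `O(1)` is invertible on
`Proj S`, for example the section ring of an ample invertible sheaf on a projective variety. Suppose
that `S` is Gorenstein of dimension `d` with negative `a`-invariant. Then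
`15 d < 9 N + 10 dim S_1`, that is, `dim S_1 > (3 / 2) d - (9 / 10) N`. In particular `S_1 ≠ 0` if
`3 N ≤ 5 d`. -/
theorem result (k S : Type u) [Field k] [CommRing S] [IsDomain S] [Algebra k S]
    (𝒜 : ℕ → Submodule k S) [GradedAlgebra 𝒜] (h0 : Module.finrank k (𝒜 0) = 1)
    (hL : IsInvertible 𝒜) (d : ℕ) (e : Fin d → ℕ) (θ : Fin d → S) (σ : ℕ)
    (hG : IsGorenstein 𝒜 e θ σ) (a : ℤ) (ha : a = σ - ∑ j, (e j : ℤ)) (ha0 : a < 0)
    (N : ℕ) (x : Fin N → S) (w : Fin N → ℕ) (hw : ∀ i, 0 < w i) (hx : ∀ i, x i ∈ 𝒜 (w i))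
    (hgen : Algebra.adjoin k (Set.range x) = ⊤) :
    15 * d < 9 * N + 10 * Module.finrank k (𝒜 1) ∧ (3 * N ≤ 5 * d → 𝒜 1 ≠ ⊥) := by
  have : IsNoetherianRing S := Pool.Agent.Helper9.SC.noetherian hgen
  have hfin := fun n => Pool.Agent.Helper9.SC.finite_deg hx hw hgen n
  obtain ⟨D, R, hd, hR1, hR2, hR3, hs⟩ := Pool.Agent.Helper9.SC.setup k S 𝒜 h0 hfin hL d e θ σ
    hG.pos hG.mem hG.regular hG.parameters hG.socle a ha ha0
  obtain ⟨h1, h2⟩ := Pool.Agent.Helper9.SC.linear_bound h0 hL hR1 hR2 hR3 (by omega) hw hx hgen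
  rw [← hd] at h1 h2
  have h3 : 15 * d < 9 * N + 10 * Module.finrank k (𝒜 1) := by omega
  refine ⟨h3, fun h4 h5 => ?_⟩
  rw [h5, finrank_bot] at h3
  omega

end Pool.Agent.Results.MP_954e53_ag.LinearBound
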