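import Pool.Agent.Helper9.SC18

/-!
# Gorenstein section rings of small codimension

Let `S` be a Gorenstein section ring of dimension `d` with `a`-invariant `a < 0`, generated by `N`
homogeneous elements, in every characteristic and without any condition on the singularities. Then
`S_1 ≠ 0` if `N ≤ d + 10`, and also if `a + d ≤ 7` and `N ≤ d + 85`.

Proof: suppose that `S_1 = 0`. The numerator of the Hilbert series is palindromic of degree
`a + d < d`, with `R(1) ≥ 1`, so that `h_n = dim S_n` for all `n` are integral linear forms in the first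
`(a + d) / 2` of them. Since `O(1)` is invertible, for every prime `p` the generators of degree prime
to `p` have no common zero, so at most `N - d` generators have a degree divisible by `p`. As `S` is
generated by the elements `x i`, one has `h_n ≤ c_n + ∑ h_i h_(n-i) + (h_(n/2) + 1 choose 2)` where
`c_n` is the number of the generators of degree `n`. The resulting systems of integral inequalities
have no solution. Only finitely many `d` have to be considered, by the maximum principle for the
numerator of the Hilbert series on an annulus (compare `LinearBound`).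
-/

set_option autoImplicit false

universe u

namespace Pool.Agent.Results.MP_954e53_ag.SmallCodimension

variable {k S : Type u} [Field k] [CommRing S] [Algebra k S] (𝒜 : ℕ → Submodule k S)

/-- The sheaf `O(1)` is invertible on `Proj S`: for every homogeneous prime ideal which does not
contain all elements of positive degree there are elements of two consecutive degrees outside of it.
(This holds if `S` is the section ring of an ample invertible sheaf `L`, since `L ^ n` is generated
by its sections for large `n`.) -/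
def IsInvertible [GradedAlgebra 𝒜] : Prop :=
  ∀ 𝔭 : Ideal S, 𝔭.IsPrime → 𝔭.IsHomogeneous 𝒜 → (∃ n, 0 < n ∧ ∃ x ∈ 𝒜 n, x ∉ 𝔭) →
    ∃ n, (∃ x ∈ 𝒜 n, x ∉ 𝔭) ∧ ∃ y ∈ 𝒜 (n + 1), y ∉ 𝔭

/-- The graded ring `S` is Gorenstein: the elements `θ 1, ..., θ d`, homogeneous of positive degrees
`e 1, ..., e d`, form a homogeneous system of parameters (the ideal `(θ)` contains all elements of
large degree) and a regular sequence, and the socle of `S / (θ)` is a line, generated by the class of
an element of degree `σ`. So `d` is the dimension of `S` and `σ - ∑ e j` is the `a`-invariant. -/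
structure IsGorenstein {d : ℕ} (e : Fin d → ℕ) (θ : Fin d → S) (σ : ℕ) : Prop where
  pos : ∀ j, 0 < e j
  mem : ∀ j, θ j ∈ 𝒜 (e j)
  regular : ∀ (j : Fin d) (x : S), θ j * x ∈ Ideal.span (θ '' {i | i < j}) →
    x ∈ Ideal.span (θ '' {i | i < j})
  parameters : ∃ N, ∀ n, N ≤ n → ∀ x ∈ 𝒜 n, x ∈ Ideal.span (Set.range θ)
  socle : ∃ s ∈ 𝒜 σ, s ∉ Ideal.span (Set.range θ) ∧
    ∀ x, (∀ n, 0 < n → ∀ y ∈ 𝒜 n, x * y ∈ Ideal.span (Set.range θ)) ↔
      ∃ c : k, x - c • s ∈ Ideal.span (Set.range θ)

/-- Let `S = ⨁ S_n` be a graded domain over an arbitrary field `k = S_0`, generated by `N`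
homogeneous elements `x 1, ..., x N` of positive degrees, such that `O(1)` is invertible on
`Proj S`, for example the section ring of an ample invertible sheaf on a projective variety. Suppose
that `S` is Gorenstein of dimension `d` with negative `a`-invariant `a`. Then `S_1 ≠ 0` if
`N ≤ d + 10`, and also if `a + d ≤ 7` and `N ≤ d + 85`. -/
theorem result (k S : Type u) [Field k] [CommRing S] [IsDomain S] [Algebra k S]
    (𝒜 : ℕ → Submodule k S) [GradedAlgebra 𝒜] (h0 : Module.finrank k (𝒜 0) = 1)
    (hL : IsInvertible 𝒜) (d : ℕ) (e : Fin d → ℕ) (θ : Fin d → S) (σ : ℕ)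
    (hG : IsGorenstein 𝒜 e θ σ) (a : ℤ) (ha : a = σ - ∑ j, (e j : ℤ)) (ha0 : a < 0)
    (N : ℕ) (x : Fin N → S) (w : Fin N → ℕ) (hw : ∀ i, 0 < w i) (hx : ∀ i, x i ∈ 𝒜 (w i))
    (hgen : Algebra.adjoin k (Set.range x) = ⊤) :
    (N ≤ d + 10 → 𝒜 1 ≠ ⊥) ∧ (a + d ≤ 7 → N ≤ d + 85 → 𝒜 1 ≠ ⊥) := by
  have : IsNoetherianRing S := Pool.Agent.Helper9.SC.noetherian hgen
  have hfin := fun n => Pool.Agent.Helper9.SC.finite_deg hx hw hgen n
  obtain ⟨D, R, hd, hR1, hR2, hR3, hs⟩ := Pool.Agent.Helper9.SC.setup k S 𝒜 h0 hfin hL d e θ σ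
    hG.pos hG.mem hG.regular hG.parameters hG.socle a ha ha0
  refine ⟨fun h4 h5 => ?_, fun h3 h4 h5 => ?_⟩
  · have := Pool.Agent.Helper9.SC.small_codim h0 h5 hL hR1 hR2 hR3 (by omega) hw hx hgen
    omega
  · have := Pool.Agent.Helper9.SC.low_dim h0 h5 hL hR1 hR2 hR3 (by omega) (by omega) hw hx hgen
    omega

end Pool.Agent.Results.MP_954e53_ag.SmallCodimension
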