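import Mathlib
import Pool.Agent.Helper7.JQ.Gal
import Pool.Agent.Helper7.JQ.Pos3

/-!
# Degree one elements of section rings of joint quotients of two or three factors

Let `Y i` be two or three weighted complete intersections over the complex numbers, each Fano or
Calabi-Yau (the sum `E i` of the degrees is at most the sum `W i` of the weights), with arbitrary
singularities, and let a finite group `G` act on all the `Y i` (linearly on the variables). `G` may
act jointly: it need not be a product of groups acting on the factors. Let `X` be the quotient of
the product of the `Y i` by `G`, and let `M` be the product of the order of `G`, of all the weights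
and of all the degrees. Suppose that

* there are two factors and `6` does not divide `M`, or
* there are three factors and none of `2`, `15`, `21` divides `M` (for instance: `M` is prime to `6`, or
  a power of `3`).

If the sheaf `O(1, …, 1)` is invertible on `X` then it has a nonzero section, that is, the section
ring `S` of `X` has a nonzero element of degree one. By Hyry and Smith this is the equality of the core
and of the graded core of `I_N` for large `N`.

For four factors this is false: there is a quotient of the product of four plane cubics by a
group of order a power of `3` for which `S_1 = 0`, and here `M` is a power of `3`.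

Idea of the proof. For `g` in `G` and for every `i` there is a number `t i` such that, for all `a` prime
to `M`, `(t i) ^ a` times the trace of `g ^ a` on the degree one part of the ring of `Y i` is
`R i + ∑ u i r (1 - (t i / r) ^ a)`, with `R i ≥ 0`, `u i r ≥ 0`, and roots of unity `t i / r` of order
dividing `M`; and the product of the `t i` is `1`. So the sum over `a` of the traces of `g ^ a` on the
multidegree `(1, …, 1)` is a combination, with nonnegative coefficients, of the sums over `a` of
products of at most two or three numbers `1 - s ^ a`, `s` a root of unity of order dividing `M`. These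
are evaluated with Ramanujan sums: `6`, respectively `2`, `15`, `21`, are exactly the obstructions to
their positivity.
-/

namespace Pool.Agent.Results.MP_954e53_ag.ThreeFactorQuotients

open Pool.Agent.Helper7.JQ

theorem result {k : ℕ} {G : Type} [Group G] [Finite G] (D : Datum (Fin k) G)
    -- `O(1, …, 1)` is invertible on the quotient
    (hS : D.SectionRing)
    -- the factors are Fano or Calabi-Yau
    (hF : ∀ i, D.E i < D.W i ∨ (D.E i = D.W i ∧ D.c i < D.n i))
    -- `M` is the product of the order of the group, of the weights and of the degrees
    (hk : (k = 2 ∧ ¬ 6 ∣ D.M) ∨ (k = 3 ∧ ¬ 2 ∣ D.M ∧ ¬ 15 ∣ D.M ∧ ¬ 21 ∣ D.M)) :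
    ∃ P : D.Poly, D.Inv 1 P ∧ P ∉ D.I := by
  have hM := D.M_pos
  rcases hk with ⟨rfl, h6⟩ | ⟨rfl, h2, h15, h21⟩
  · exact D.exists_inv_of_pos hS hF (pos_of_two hM
      (fun s t hs ht hs1 ht1 => Pool.Agent.Helper21.JQ.s_POS2 _ hM h6 s t hs ht hs1 ht1))
  · refine D.exists_inv_of_pos hS hF (pos_of_three (pos_of_two hM ?_) ?_)
    · intro s t hs ht hs1 ht1
      refine Pool.Agent.Helper21.JQ.s_POS2 _ hM ?_ s t hs ht hs1 ht1
      intro h6
      exact h2 (Dvd.dvd.trans (by norm_num) h6)
    · intro s t u hs ht hu hs1 ht1 hu1
      exact pos3 _ hM h2 h15 h21 s t u hs ht hu hs1 ht1 hu1

end Pool.Agent.Results.MP_954e53_ag.ThreeFactorQuotients
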